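import Mathlib
import Pool.Agent.Helper1.RG.Defs

/-! # Row A3 of the project RG (MP_c9c10f): the units `(a + i) / (a - i)` -/

set_option autoImplicit false

open Complex

namespace Pool.Agent.Helper95.RG

open Pool.Agent.Helper1.RG

/-- `2 - i` -/
def g1 : GaussianInt := ⟨2, -1⟩
/-- `2 + i` -/
def g2 : GaussianInt := ⟨2, 1⟩

theorem gdvd (w : GaussianInt) : g1 ∣ w ↔ (5 : ℤ) ∣ w.re + 2 * w.im := by
  constructor
  · rintro ⟨z, rfl⟩
    refine ⟨z.im, ?_⟩
    simp only [g1, Zsqrtd.re_mul, Zsqrtd.im_mul]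
    ring
  · rintro ⟨t, ht⟩
    refine ⟨⟨2 * t - w.im, t⟩, ?_⟩
    ext
    · simp only [g1, Zsqrtd.re_mul]; linarith
    · simp only [g1, Zsqrtd.im_mul]; ring

theorem gmul {w w' : GaussianInt} (h : g1 ∣ w * w') : g1 ∣ w ∨ g1 ∣ w' := by
  rw [gdvd] at h
  have h1 : (5 : ℤ) ∣ (w.re + 2 * w.im) * (w'.re + 2 * w'.im) := by
    have e : (w.re + 2 * w.im) * (w'.re + 2 * w'.im) =
        ((w * w').re + 2 * (w * w').im) + 5 * (w.im * w'.im) := by
      simp only [Zsqrtd.re_mul, Zsqrtd.im_mul]; ring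
    rw [e]
    exact dvd_add h ⟨_, rfl⟩
  rw [gdvd, gdvd]
  exact (by norm_num : Prime (5 : ℤ)).dvd_or_dvd h1

theorem g1_ne : g1 ≠ 0 := by
  intro h
  have := congrArg Zsqrtd.re h
  simp [g1] at this

theorem not_dvd_one : ¬ g1 ∣ 1 := by
  rw [gdvd]; simp only [Zsqrtd.re_one, Zsqrtd.im_one]; norm_num

theorem g1_prime : Prime g1 :=
  ⟨g1_ne, fun h => not_dvd_one h.dvd, fun _ _ h => gmul h⟩

theorem g12 : g1 * g2 = 5 := by
  ext <;> simp [g1, g2, Zsqrtd.re_mul, Zsqrtd.im_mul]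

theorem not_dvd_g2 : ¬ g1 ∣ g2 := by
  rw [gdvd]; simp only [g2]; norm_num

theorem int_dvd {c : ℤ} (h : g1 ∣ (c : GaussianInt)) : (5 : ℤ) ∣ c := by
  rw [gdvd] at h; simpa using h

/-- a power of `2 - i` dividing an integer -/
theorem pow_int_dvd : ∀ (n : ℕ) (c : ℤ), g1 ^ n ∣ (c : GaussianInt) → (5 : ℤ) ^ n ∣ c := by
  intro n
  induction n with
  | zero => intro c _; simp
  | succ n ih =>
    intro c h
    have h1 : g1 ∣ (c : GaussianInt) := (dvd_pow_self g1 (Nat.succ_ne_zero n)).trans h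
    obtain ⟨d, rfl⟩ := int_dvd h1
    have h2 : g1 ^ n ∣ g2 * (d : GaussianInt) := by
      have : g1 * g1 ^ n ∣ g1 * (g2 * (d : GaussianInt)) := by
        rw [← mul_assoc, g12, ← pow_succ']
        simpa using h
      exact (mul_dvd_mul_iff_left g1_ne).1 this
    have h3 : g1 ^ n ∣ (d : GaussianInt) :=
      g1_prime.pow_dvd_of_dvd_mul_left n not_dvd_g2 h2
    rw [pow_succ']
    exact mul_dvd_mul_left 5 (ih d h3)

theorem exists_a0 : ∀ n : ℕ, ∃ a : ℤ, g1 ^ n ∣ (⟨a, -1⟩ : GaussianInt) := by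
  intro n
  induction n with
  | zero => exact ⟨0, by simp⟩
  | succ n ih =>
    obtain ⟨a, w, hw⟩ := ih
    -- `a + 5^n c - i = g1^n (w + g2^n c)`
    have key : ∀ c : ℤ, (⟨a + 5 ^ n * c, -1⟩ : GaussianInt) = g1 ^ n * (w + g2 ^ n * (c : GaussianInt)) := by
      intro c
      rw [mul_add, ← hw, ← mul_assoc, ← mul_pow, g12]
      have e5 : ((5 : GaussianInt) ^ n * (c : GaussianInt)) = (((5 ^ n * c : ℤ)) : GaussianInt) := by
        push_cast; rfl
      rw [e5]
      ext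
      · simp only [Zsqrtd.re_add, Zsqrtd.re_intCast]
      · simp only [Zsqrtd.im_add, Zsqrtd.im_intCast, add_zero]
    -- the class of `g2 ^ n` is `(-1)^n`
    have hg2 : ∀ n : ℕ, (5 : ℤ) ∣ (g2 ^ n).re + 2 * (g2 ^ n).im - (-1) ^ n := by
      intro n
      induction n with
      | zero => simp
      | succ n ih =>
        obtain ⟨t, ht⟩ := ih
        rw [pow_succ g2 n, Zsqrtd.re_mul, Zsqrtd.im_mul, pow_succ (-1 : ℤ) n]
        refine ⟨(g2 ^ n).re + (g2 ^ n).im - t, ?_⟩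
        simp only [g2] at ht ⊢
        have := ht
        linarith
    obtain ⟨t, ht⟩ := hg2 n
    refine ⟨a + 5 ^ n * (-((-1) ^ n * (w.re + 2 * w.im))), ?_⟩
    rw [key, pow_succ]
    refine mul_dvd_mul_left _ ?_
    rw [gdvd]
    have h1 : ((-1 : ℤ) ^ n) * (-1) ^ n = 1 := by
      rw [← mul_pow]; simp
    set c : ℤ := -((-1) ^ n * (w.re + 2 * w.im)) with hc
    have e1 : (w + g2 ^ n * (c : GaussianInt)).re = w.re + (g2 ^ n).re * c := by
      simp [Zsqrtd.re_mul]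
    have e2 : (w + g2 ^ n * (c : GaussianInt)).im = w.im + (g2 ^ n).im * c := by
      simp [Zsqrtd.im_mul]
    rw [e1, e2]
    refine ⟨t * c, ?_⟩
    have h2 : (g2 ^ n).re = 5 * t + (-1) ^ n - 2 * (g2 ^ n).im := by linarith
    rw [h2, hc]
    linear_combination (-(w.re + 2 * w.im)) * h1

/-- the Gaussian integer `a - i` -/
def am (a : ℤ) : GaussianInt := ⟨a, -1⟩
/-- the Gaussian integer `a + i` -/
def ap (a : ℤ) : GaussianInt := ⟨a, 1⟩

theorem am_c (a : ℤ) : GaussianInt.toComplex (am a) = a - I := by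
  rw [GaussianInt.toComplex_def]; simp [am]; ring

theorem ap_c (a : ℤ) : GaussianInt.toComplex (ap a) = a + I := by
  rw [GaussianInt.toComplex_def]; simp [ap]

theorem g1_c : GaussianInt.toComplex g1 = gb := by
  rw [GaussianInt.toComplex_def]; simp [g1, gb]; ring

theorem am_ne (a : ℤ) : (a : ℂ) - I ≠ 0 := by
  intro h
  have := congrArg Complex.im h
  simp at this

/-- the unit `(a + i) / (a - i)` -/
noncomputable def ua (a : ℤ) : ℂ := (a + I) / (a - I)

theorem ua_QU (a : ℤ) : ua a ∈ QU := by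
  have h1 : (a : ℂ) ^ 2 + 1 ≠ 0 := by
    have h2 : (a : ℂ) ^ 2 + 1 = ((a : ℂ) - I) * (a + I) := by ring_nf; rw [I_sq]; ring
    rw [h2]
    refine mul_ne_zero (am_ne a) ?_
    intro h
    have := congrArg Complex.im h
    simp at this
  refine ⟨⟨((a : ℚ) ^ 2 - 1) / ((a : ℚ) ^ 2 + 1), 2 * a / ((a : ℚ) ^ 2 + 1), ?_⟩, ?_⟩
  · rw [ua, div_eq_iff (am_ne a)]
    push_cast
    field_simp
    ring_nf
    rw [I_sq]
    ring
  · have h2 : ‖(a : ℂ) + I‖ = ‖(a : ℂ) - I‖ := by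
      have : (a : ℂ) - I = (starRingEnd ℂ) ((a : ℂ) + I) := by
        simp [sub_eq_add_neg]
      rw [this, RCLike.norm_conj]
    rw [ua, norm_div, h2, div_self]
    exact norm_ne_zero_iff.2 (am_ne a)

theorem st_A3 : ST_A3 := by
  intro L
  set n : ℕ := L + 1 with hn
  obtain ⟨a0, w, hw⟩ := exists_a0 (n + 1)
  -- the numbers `a`
  set A : ℤ → ℤ := fun c => a0 + 5 ^ n * c with hA
  set α : ℤ → GaussianInt := fun c => g1 * w + g2 ^ n * (c : GaussianInt) with hα
  have hfac : ∀ c, am (A c) = g1 ^ n * α c := by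
    intro c
    have e5 : ((5 : GaussianInt) ^ n * (c : GaussianInt)) = (((5 ^ n * c : ℤ)) : GaussianInt) := by
      push_cast; rfl
    have h1 : g1 ^ n * α c = (⟨a0, -1⟩ : GaussianInt) + (((5 ^ n * c : ℤ)) : GaussianInt) := by
      rw [hw, ← e5, ← g12, mul_pow, hα]
      simp only
      rw [pow_succ]; ring
    rw [h1]
    ext
    · simp only [am, hA, Zsqrtd.re_add, Zsqrtd.re_intCast]
    · simp only [am, Zsqrtd.im_add, Zsqrtd.im_intCast, add_zero]
  have hα' : ∀ c : ℤ, ¬ (5 : ℤ) ∣ c → ¬ g1 ∣ α c := by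
    intro c hc h
    have h1 : g1 ∣ g2 ^ n * (c : GaussianInt) := by
      have := (Dvd.intro w rfl : g1 ∣ g1 * w)
      exact (dvd_add_right this).1 h
    rcases gmul h1 with h2 | h2
    · exact not_dvd_g2 (g1_prime.dvd_of_dvd_pow h2)
    · exact hc (int_dvd h2)
  have hdiff : ∀ c c' : ℤ, ¬ (5 : ℤ) ∣ c → ¬ (5 : ℤ) ∣ c' → ua (A c) - ua (A c') ∈ RR →
      (5 : ℤ) ^ n ∣ c' - c := by
    intro c c' hc hc' ⟨t, s, hs, hts⟩
    -- in the Gaussian integers
    have h1 : (⟨0, 2⟩ : GaussianInt) * (((5 ^ n * (c' - c) : ℤ)) : GaussianInt) * s =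
        t * (am (A c) * am (A c')) := by
      apply GaussianInt.toComplex_injective
      simp only [map_mul, am_c]
      have h2 : (ua (A c) - ua (A c')) * (((A c : ℤ) : ℂ) - I) * (((A c' : ℤ) : ℂ) - I) =
          2 * I * (((5 ^ n * (c' - c) : ℤ)) : ℂ) := by
        have e1 := am_ne (A c)
        have e2 := am_ne (A c')
        have e3 : (((5 ^ n * (c' - c) : ℤ)) : ℂ) = (A c' : ℂ) - (A c : ℂ) := by
          simp only [hA]; push_cast; ring
        rw [e3, ua, ua]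
        field_simp
        ring
      have h3 : GaussianInt.toComplex (⟨0, 2⟩ : GaussianInt) = 2 * I := by
        rw [GaussianInt.toComplex_def]; simp
      rw [h3, ← hts, map_intCast]
      rw [← h2]; ring
    rw [hfac, hfac] at h1
    have h4 : ((5 ^ n * (c' - c) : ℤ) : GaussianInt) = g1 ^ n * (g2 ^ n * (((c' - c : ℤ)) : GaussianInt)) := by
      rw [← mul_assoc, ← mul_pow, g12]; push_cast; rfl
    rw [h4] at h1
    have h5 : g1 ^ n * ((⟨0, 2⟩ : GaussianInt) * (g2 ^ n * (((c' - c : ℤ)) : GaussianInt)) * s) =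
        g1 ^ n * (g1 ^ n * (t * (α c * α c'))) := by
      linear_combination h1
    have h6 := mul_left_cancel₀ (pow_ne_zero n g1_ne) h5
    have h7 : g1 ^ n ∣ (s * (⟨0, 2⟩ : GaussianInt) * g2 ^ n) * (((c' - c : ℤ)) : GaussianInt) := by
      refine ⟨t * (α c * α c'), ?_⟩
      linear_combination h6
    refine pow_int_dvd n _ (g1_prime.pow_dvd_of_dvd_mul_left n ?_ h7)
    intro h8
    rcases gmul h8 with h9 | h9
    · rcases gmul h9 with h10 | h10
      · exact hs h10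
      · rw [gdvd] at h10; norm_num at h10
    · exact not_dvd_g2 (g1_prime.dvd_of_dvd_pow h9)
  -- the index set
  set c : ℕ × ℕ → ℤ := fun p => ((5 * p.1 + p.2 + 1 : ℕ) : ℤ) with hc
  set I0 : Finset (ℕ × ℕ) := Finset.range (5 ^ L) ×ˢ Finset.range 4 with hI0
  have hc5 : ∀ p ∈ I0, ¬ (5 : ℤ) ∣ c p := by
    intro p hp
    simp only [hI0, Finset.mem_product, Finset.mem_range] at hp
    simp only [hc]
    omega
  have hcinj : ∀ p ∈ I0, ∀ p' ∈ I0, (5 : ℤ) ^ n ∣ c p' - c p → p = p' := by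
    intro p hp p' hp' h
    simp only [hI0, Finset.mem_product, Finset.mem_range] at hp hp'
    have h5 : (5 : ℤ) ^ n = 5 * ((5 ^ L : ℕ) : ℤ) := by
      rw [hn, pow_succ']; push_cast; ring
    rw [h5] at h
    simp only [hc] at h
    obtain ⟨t, ht⟩ := h
    push_cast at ht
    have hL : ((5 ^ L : ℕ) : ℤ) = (5 : ℤ) ^ L := by push_cast; rfl
    have b1 : (p.1 : ℤ) < (5 : ℤ) ^ L := by rw [← hL]; exact_mod_cast hp.1
    have b2 : (p'.1 : ℤ) < (5 : ℤ) ^ L := by rw [← hL]; exact_mod_cast hp'.1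
    have ht0 : t = 0 := by
      by_contra hne
      rcases lt_or_gt_of_ne hne with h1 | h1
      · have : t ≤ -1 := by omega
        have h2 : 5 * (5 : ℤ) ^ L * t ≤ 5 * (5 : ℤ) ^ L * (-1) :=
          mul_le_mul_of_nonneg_left this (by positivity)
        have := hp.2; have := hp'.2
        omega
      · have : 1 ≤ t := by omega
        have h2 : 5 * (5 : ℤ) ^ L * 1 ≤ 5 * (5 : ℤ) ^ L * t :=
          mul_le_mul_of_nonneg_left this (by positivity)
        have := hp.2; have := hp'.2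
        omega
    rw [ht0] at ht
    have := hp.2; have := hp'.2
    ext <;> omega
  have zero_RR : (0 : ℂ) ∈ RR := ⟨0, 1, not_dvd_one, by simp⟩
  have hinj : Set.InjOn (fun p => ua (A (c p))) (I0 : Set (ℕ × ℕ)) := by
    intro p hp p' hp' h
    refine hcinj p hp p' hp' (hdiff _ _ (hc5 p hp) (hc5 p' hp') ?_)
    simp only at h
    rw [h, sub_self]
    exact zero_RR
  refine ⟨I0.image (fun p => ua (A (c p))), ?_, ?_, ?_⟩
  · rw [Finset.card_image_of_injOn hinj, hI0, Finset.card_product, Finset.card_range,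
      Finset.card_range]
    ring
  · intro u hu
    obtain ⟨p, hp, rfl⟩ := Finset.mem_image.1 hu
    refine ⟨ua_QU _, ?_⟩
    refine ⟨ap (A (c p)), α (c p), hα' _ (hc5 p hp), ?_⟩
    have h1 := congrArg GaussianInt.toComplex (hfac (c p))
    rw [map_mul, map_pow, g1_c, am_c] at h1
    rw [ap_c, ua]
    have h2 := am_ne (A (c p))
    rw [mul_assoc, mul_comm ((((A (c p) : ℤ) : ℂ) + I) / (((A (c p) : ℤ) : ℂ) - I)), ← mul_assoc,
      ← h1, mul_div_assoc', mul_div_cancel_left₀ _ h2]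
  · intro u hu v hv huv h
    obtain ⟨p, hp, rfl⟩ := Finset.mem_image.1 hu
    obtain ⟨p', hp', rfl⟩ := Finset.mem_image.1 hv
    exact huv (by rw [hcinj p hp p' hp' (hdiff _ _ (hc5 p hp) (hc5 p' hp') h)])

end Pool.Agent.Helper95.RG
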