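import Mathlib
import Pool.Agent.Helper1.RG.Defs

/-! # Row FIL of the project RG (MP_c9c10f): the filtration -/

set_option autoImplicit false

open MeasureTheory Complex

namespace Pool.Agent.Helper95.RG

open Pool.Agent.Helper1.RG

theorem ev_meas {S : Set ℂ} {x : ℂ} (hx : x ∈ S) : Measurable[sig S] (ev x) := by
  have h1 : Measurable[sig S] (fun (χ : Om) (x : S) => ev (x : ℂ) χ) :=
    comap_measurable _
  exact (measurable_pi_apply (⟨x, hx⟩ : S)).comp h1

theorem sig_le {S : Set ℂ} {m : MeasurableSpace Om} (h : ∀ x ∈ S, Measurable[m] (ev x)) :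
    sig S ≤ m := by
  have h1 : Measurable[m] (fun (χ : Om) (x : S) => ev (x : ℂ) χ) :=
    measurable_pi_iff.2 fun x => h x x.2
  exact h1.comap_le

theorem sig_mono {S S' : Set ℂ} (h : S ⊆ S') : sig S ≤ sig S' :=
  sig_le fun _ hx => ev_meas (h hx)

theorem ev_add (x y : ℂ) (χ : Om) : ev (x + y) χ = ev x χ * ev y χ := by
  simp only [ev, AddChar.map_add_eq_mul, Circle.coe_mul]

theorem ev_nat_mul (a : ℕ) (x : ℂ) (χ : Om) : ev ((a : ℂ) * x) χ = ev x χ ^ a := by
  have h1 : χ ((a : ℂ) * x) = χ x ^ a := by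
    rw [← nsmul_eq_mul, AddChar.map_nsmul_eq_pow]
  simp only [ev, h1, Circle.coe_pow]

theorem st_FIL (hA1 : ST_A1) (hA2 : ST_A2) : ST_FIL := by
  obtain ⟨_, _, _, _, _, hmono, _, _, _, _, hxj, _⟩ := hA1
  intro j
  have h1 : Fil j ≤ Fil (j + 1) := sig_mono fun x hx => hmono j x hx
  refine ⟨h1, sig_mono (Set.subset_univ _), le_antisymm ?_ ?_⟩
  · refine sig_le fun x hx => ?_
    obtain ⟨a, _, hy⟩ := hA2 j x hx
    have e1 : ev x = fun χ => ev (x - a * xj j) χ * ev (xj j) χ ^ a := by
      funext χ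
      rw [← ev_nat_mul, ← ev_add]
      congr 1; ring
    rw [e1]
    have m1 : Measurable[Fil j ⊔ MeasurableSpace.comap (ev (xj j)) (borel ℂ)]
        (ev (x - a * xj j)) := (ev_meas hy).mono le_sup_left le_rfl
    have m2 : Measurable[Fil j ⊔ MeasurableSpace.comap (ev (xj j)) (borel ℂ)]
        (ev (xj j)) := by
      have : Measurable[MeasurableSpace.comap (ev (xj j)) (borel ℂ)] (ev (xj j)) := by
        have e2 : (borel ℂ) = (inferInstance : MeasurableSpace ℂ) :=
          (BorelSpace.measurable_eq (α := ℂ)).symm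
        rw [e2]
        exact comap_measurable _
      exact this.mono le_sup_right le_rfl
    exact m1.mul (m2.pow_const a)
  · refine sup_le h1 ?_
    have e2 : (borel ℂ) = (inferInstance : MeasurableSpace ℂ) :=
      (BorelSpace.measurable_eq (α := ℂ)).symm
    rw [e2]
    exact (ev_meas (hxj j)).comap_le

end Pool.Agent.Helper95.RG
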