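import Pool.Agent.Helper13.RG.Stmts

/-!
Existence of an element with the same values (module EXI for `MP_8312c9_nt`).
-/

set_option autoImplicit false

open scoped Classical

namespace Pool.Agent.Helper13.RG

open Pool.Agent.Helper14.BSC Pool.Agent.Helper13.ZL

/-- algebraic elements of the fixed field are constants -/
theorem exi_alg (hBOT : ST_BOT) {k Ω : Type} [Field k] [Field Ω] [Algebra k Ω] [CharZero k]
    [IsAlgClosed Ω] (D : Sec k Ω) (x : LL D) (h : IsAlgebraic k (x : Ω)) :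
    ∃ c : k, x = algebraMap k (LL D) c := by
  have hx : (x : Ω) ∈ Acl k Ω := mem_algebraicClosure_iff.2 h
  have h1 : (⟨(x : Ω), hx⟩ : Acl k Ω) ∈ FF (∅ : Set (Acl k Ω)) :=
    (coe_mem_NN (D := D) (S := ∅) (x := (⟨(x : Ω), hx⟩ : Acl k Ω))).1 x.2
  obtain ⟨c, hc⟩ := hBOT k Ω _ h1
  refine ⟨c, Subtype.ext ?_⟩
  have h2 := congrArg (fun z : Acl k Ω => (z : Ω)) hc
  exact h2

/-- constants have the same values -/
theorem exi_const {k Ω : Type} [Field k] [Field Ω] [Algebra k Ω] (D D' : Sec k Ω) (c : k) :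
    AllSame D D' (algebraMap k (LL D) c) (algebraMap k (LL D') c) := by
  intro p _ σ P P'
  obtain ⟨h1, h2⟩ := P.base c
  obtain ⟨h3, h4⟩ := P'.base c
  refine ⟨⟨fun _ => h3, fun _ => h1⟩, fun hx hy => ?_⟩
  exact h2.trans h4.symm

/-- compatibility of the evaluation maps with base change -/
theorem exi_comp {k k₁ Ω : Type} [Field k] [Field k₁] [Field Ω] [Algebra k Ω] [Algebra k₁ Ω]
    {j : k →+* k₁} {D : Sec k Ω} {D₁ : Sec k₁ Ω} (h : IsBC j D D₁) (f : LL D) (f₁ : LL D₁)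
    (hf : (f : Ω) = (f₁ : Ω)) :
    (algebraMap (LL D₁) Ω).comp ((Polynomial.aeval f₁).toRingHom.comp (Polynomial.mapRingHom j)) =
      (algebraMap (LL D) Ω).comp (Polynomial.aeval f : Polynomial k →ₐ[k] LL D).toRingHom := by
  apply Polynomial.ringHom_ext
  · intro c
    simp only [RingHom.comp_apply, Polynomial.coe_mapRingHom, Polynomial.map_C,
      AlgHom.toRingHom_eq_coe, RingHom.coe_coe, Polynomial.aeval_C]
    rw [← IsScalarTower.algebraMap_apply, ← IsScalarTower.algebraMap_apply]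
    exact h.hj c
  · simp only [RingHom.comp_apply, Polynomial.coe_mapRingHom, Polynomial.map_X,
      AlgHom.toRingHom_eq_coe, RingHom.coe_coe, Polynomial.aeval_X]
    exact hf.symm

/-- elements of a number field are algebraic over a subfield -/
theorem exi_nf {k k₁ Ω : Type} [Field k] [CharZero k] [Field k₁] [NumberField k₁] [Field Ω]
    [Algebra k Ω] [Algebra k₁ Ω] (c : k₁) : IsAlgebraic k (algebraMap k₁ Ω c) := by
  have : CharZero Ω := charZero_of_injective_algebraMap (algebraMap k Ω).injective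
  have h1 : IsAlgebraic ℚ c := Algebra.IsAlgebraic.isAlgebraic c
  have h2 : IsAlgebraic ℚ (algebraMap k₁ Ω c) := h1.algebraMap
  exact h2.tower_top k

theorem st_EXI (hGBC : ST_GBC) (hNGB : ST_NGB) (hEX1 : ST_EX1) (hSAM : ST_SAM) (hTRV : ST_TRV)
    (hUNE : ST_UNE) (hPEX : ST_PEX) (hDWG : Pool.Agent.Helper22.FF.ST_DWG) (hBOT : ST_BOT) :
    ST_EXI := by
  intro k Ω _ _ _ _ _ D D' hD hD' f f' hf hf' hS x hx
  obtain ⟨G, hG0, hG⟩ := hx
  by_cases hxc : NC D x
  swap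
  · rw [NC] at hxc
    push Not at hxc
    obtain ⟨c, rfl⟩ := hxc
    exact ⟨_, exi_const D D' c⟩
  -- the polynomial over `LL D'`
  have hinj : Function.Injective (Polynomial.aeval f' : Polynomial k →ₐ[k] LL D').toRingHom := by
    rw [injective_iff_map_eq_zero]
    intro q hq
    by_contra hq0
    have h1 : IsAlgebraic k f' := ⟨q, hq0, hq⟩
    have h2 : IsAlgebraic k (f' : Ω) := h1.algebraMap
    obtain ⟨c, hc⟩ := exi_alg hBOT D' f' h2
    exact hf' c hc
  set G' := G.map (Polynomial.aeval f' : Polynomial k →ₐ[k] LL D').toRingHom with hG'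
  have hG'0 : G' ≠ 0 := (Polynomial.map_ne_zero_iff hinj).2 hG0
  set GΩ := G'.map (algebraMap (LL D') Ω) with hGΩ
  have hsplit : GΩ = Polynomial.C GΩ.leadingCoeff *
      (GΩ.roots.map (fun a => Polynomial.X - Polynomial.C a)).prod :=
    (IsAlgClosed.splits GΩ).eq_prod_roots
  obtain ⟨k₁, _, _, _, j, D₁, D₁', h1, h2, hX⟩ := hGBC k Ω D D' GΩ.roots.toFinset
  let f₁ : LL D₁ := ⟨(f : Ω), h1.sub _ f.2⟩
  let x₁ : LL D₁ := ⟨(x : Ω), h1.sub _ x.2⟩
  let f₁' : LL D₁' := ⟨(f' : Ω), h2.sub _ f'.2⟩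
  let a : LL D₁' := ⟨((G'.leadingCoeff : LL D') : Ω), h2.sub _ (G'.leadingCoeff).2⟩
  have ha : a ≠ 0 := by
    intro h
    have h3 := congrArg (fun z : LL D₁' => (z : Ω)) h
    have h4 : ((G'.leadingCoeff : LL D') : Ω) = 0 := h3
    have h5 : G'.leadingCoeff = 0 := Subtype.ext h4
    exact hG'0 (Polynomial.leadingCoeff_eq_zero.1 h5)
  let Z : Multiset (LL D₁') := GΩ.roots.attach.map
    (fun z => (⟨z.1, (hX z.1 (Multiset.mem_toFinset.2 z.2)).2⟩ : LL D₁'))
  let G₁ : Polynomial (Polynomial k₁) := G.map (Polynomial.mapRingHom j)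
  -- the equation of `x₁`
  have hG₁ : Polynomial.eval₂ (Polynomial.aeval f₁).toRingHom x₁ G₁ = 0 := by
    apply (algebraMap (LL D₁) Ω).injective
    rw [Polynomial.eval₂_map, Polynomial.hom_eval₂, exi_comp h1 f f₁ rfl, map_zero]
    have h3 := congrArg (algebraMap (LL D) Ω) hG
    rw [Polynomial.hom_eval₂, map_zero] at h3
    exact h3
  -- the factorization
  have hfac : G₁.map (Polynomial.aeval f₁').toRingHom =
      Polynomial.C a * (Z.map (fun z => Polynomial.X - Polynomial.C z)).prod := by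
    apply Polynomial.map_injective _ (algebraMap (LL D₁') Ω).injective
    rw [Polynomial.map_map, Polynomial.map_map, RingHom.comp_assoc, exi_comp h2 f' f₁' rfl, ← Polynomial.map_map]
    change GΩ = _
    rw [Polynomial.map_mul, Polynomial.map_C, Polynomial.map_multiset_prod, Multiset.map_map]
    rw [show (algebraMap (LL D₁') Ω) a = GΩ.leadingCoeff by
      rw [hGΩ, Polynomial.leadingCoeff_map]; rfl]
    rw [show Multiset.map (Polynomial.map (algebraMap (LL D₁') Ω) ∘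
        fun z : LL D₁' => Polynomial.X - Polynomial.C z) Z =
        GΩ.roots.map (fun a => Polynomial.X - Polynomial.C a) by
      simp only [Z, Multiset.map_map]
      conv_rhs => rw [← Multiset.attach_map_val GΩ.roots, Multiset.map_map]
      apply Multiset.map_congr rfl
      intro z _
      simp only [Function.comp_apply, Polynomial.map_sub, Polynomial.map_X, Polynomial.map_C]
      rfl]
    exact hsplit
  have hNx : NC D₁ x₁ := by
    intro c hc
    have h3 : (x : Ω) = algebraMap k₁ Ω c := congrArg (fun z : LL D₁ => (z : Ω)) hc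
    have h4 : IsAlgebraic k (x : Ω) := by
      rw [h3]; exact exi_nf c
    obtain ⟨c', hc'⟩ := exi_alg hBOT D x h4
    exact hxc c' hc'
  have hN := hNGB k k₁ Ω j D D₁ h1 hD
  have hN' := hNGB k k₁ Ω j D' D₁' h2 hD'
  have hS₁ : AllSame D₁ D₁' f₁ f₁' :=
    (hSAM k k₁ Ω j D D' D₁ D₁' h1 h2 f f' f₁ f₁' rfl rfl).1 hS
  obtain ⟨y₁, hy₁⟩ := hEX1 k₁ Ω D₁ D₁' hN hN' f₁ x₁ f₁' hS₁ hNx G₁ hG₁ Z a ha hfac
  have hy : ∀ g : GG k Ω, D'.s g (y₁ : Ω) = y₁ := by
    intro g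
    let y₂ : LL D₁' := ⟨D'.s g (y₁ : Ω), h2.stL g _ y₁.2⟩
    have hy₂ : AllSame D₁ D₁' x₁ y₂ := by
      intro p _ σ P P'
      obtain ⟨σ', P'', hσ, hm, hv⟩ := hTRV k k₁ Ω j D' D₁' h2 g y₁ y₂ rfl p σ P'
      obtain ⟨P3⟩ := hPEX k₁ Ω D₁ p σ'
      obtain ⟨P0⟩ := hPEX k Ω D p (σ.comp j)
      obtain ⟨hm3, hv3⟩ := hy₁ p σ' P3 P''
      obtain ⟨ha1, ha2⟩ := hDWG k k₁ Ω j D D₁ h1.hj h1.sub p (σ.comp j) σ (fun _ => rfl) P0 P
        x x₁ rfl
      obtain ⟨hb1, hb2⟩ := hDWG k k₁ Ω j D D₁ h1.hj h1.sub p (σ.comp j) σ' (fun c => hσ c) P0 P3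
        x x₁ rfl
      refine ⟨?_, ?_⟩
      · rw [← ha1, hb1, hm3, ← hm]
      · intro hx hy
        have hx0 := ha1.2 hx
        have hx3 := hb1.1 hx0
        have hy3 := hm3.1 hx3
        rw [← ha2 hx0 hx, hb2 hx0 hx3, hv3 hx3 hy3, ← hv hy hy3]
    have h3 := (hUNE k₁ Ω D₁' hN').2.1 D₁ x₁ y₂ y₁ hy₂ hy₁
    exact congrArg (fun z : LL D₁' => (z : Ω)) h3
  refine ⟨⟨(y₁ : Ω), fun g _ => hy g⟩, ?_⟩
  exact (hSAM k k₁ Ω j D D' D₁ D₁' h1 h2 x _ x₁ y₁ rfl rfl).2 hy₁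

end Pool.Agent.Helper13.RG
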